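import Pool.Agent.helper7.BQ.Spec

/-!
# Row bq:PAW
-/

namespace Pool.Agent.BQ

open Finset ArithmeticFunction MeasureTheory

theorem PAW_swap (Y B R : ℕ) (hR : 3 * Y ≤ R) (hB : B ≤ Y) (a : ℕ → ℂ) (c : ℕ → ℝ) :
    ∑ y ∈ Ico Y (2 * Y), (c y : ℂ) * ∑ n ∈ Ioc y (y + B), a n =
      ∑ j ∈ Ioc 0 R, a j * (g0 Y B c j : ℂ) := by
  have h1 : ∀ j, a j * (g0 Y B c j : ℂ) =
      ∑ y ∈ Ico Y (2 * Y), if y < j ∧ j ≤ y + B then (c y : ℂ) * a j else 0 := by
    intro j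
    unfold g0
    push_cast
    rw [Finset.mul_sum]
    refine Finset.sum_congr rfl fun y _ => ?_
    split_ifs
    · exact mul_comm _ _
    · exact mul_zero _
  rw [Finset.sum_congr rfl fun j _ => h1 j, Finset.sum_comm]
  refine Finset.sum_congr rfl fun y hy => ?_
  rw [mem_Ico] at hy
  rw [Finset.mul_sum, ← Finset.sum_filter]
  refine Finset.sum_congr ?_ fun _ _ => rfl
  ext j
  rw [mem_Ioc, mem_filter, mem_Ioc]
  constructor
  · rintro ⟨h1, h2⟩
    exact ⟨⟨by omega, by omega⟩, h1, h2⟩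
  · rintro ⟨-, h1, h2⟩
    exact ⟨h1, h2⟩

/-- bound of the sum of absolute values from the sums with bounded coefficients -/
theorem PAW_l1 (s : Finset ℕ) (E : ℕ → ℂ) (M : ℝ)
    (h : ∀ c : ℕ → ℝ, (∀ n, |c n| ≤ 1) → ‖∑ y ∈ s, (c y : ℂ) * E y‖ ≤ M) :
    ∑ y ∈ s, ‖E y‖ ≤ 2 * M := by
  have hsg : ∀ r : ℝ, |(if 0 ≤ r then (1 : ℝ) else -1)| ≤ 1 := by
    intro r
    split_ifs <;> simp
  have hsr : ∀ r : ℝ, (if 0 ≤ r then (1 : ℝ) else -1) * r = |r| := by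
    intro r
    split_ifs with h0
    · rw [one_mul, abs_of_nonneg h0]
    · rw [abs_of_neg (not_le.mp h0)]; ring
  have hre : ∑ y ∈ s, |(E y).re| ≤ M := by
    have h1 := h (fun y => if 0 ≤ (E y).re then 1 else -1) (fun n => hsg _)
    refine le_trans ?_ h1
    refine le_trans ?_ (Complex.re_le_norm _)
    rw [Complex.re_sum]
    refine Finset.sum_le_sum fun y _ => ?_
    rw [Complex.re_ofReal_mul, hsr]
  have him : ∑ y ∈ s, |(E y).im| ≤ M := by
    have h1 := h (fun y => if 0 ≤ (E y).im then 1 else -1) (fun n => hsg _)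
    refine le_trans ?_ h1
    refine le_trans ?_ ((le_abs_self _).trans (Complex.abs_im_le_norm _))
    rw [Complex.im_sum]
    refine Finset.sum_le_sum fun y _ => ?_
    rw [Complex.im_ofReal_mul, hsr]
  calc ∑ y ∈ s, ‖E y‖ ≤ ∑ y ∈ s, (|(E y).re| + |(E y).im|) :=
        Finset.sum_le_sum fun y _ => Complex.norm_le_abs_re_add_abs_im _
    _ = ∑ y ∈ s, |(E y).re| + ∑ y ∈ s, |(E y).im| := Finset.sum_add_distrib
    _ ≤ 2 * M := by linarith

theorem PAW_l2 (Y B R : ℕ) (hR : 3 * Y ≤ R) (hB : B ≤ Y) (a : ℕ → ℂ) (M L : ℝ) (hL : 0 ≤ L)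
    (ha : ∀ j, 1 ≤ j → j ≤ 3 * Y → ‖a j‖ ≤ L)
    (h : ∀ c : ℕ → ℝ, (∀ n, |c n| ≤ 1) → ‖∑ j ∈ Ioc 0 R, a j * (g0 Y B c j : ℂ)‖ ≤ M) :
    ∑ y ∈ Ico Y (2 * Y), ‖∑ n ∈ Ioc y (y + B), a n‖ ^ 2 ≤ B * L * (2 * M) := by
  have h1 : ∑ y ∈ Ico Y (2 * Y), ‖∑ n ∈ Ioc y (y + B), a n‖ ≤ 2 * M := by
    apply PAW_l1
    intro c hc
    rw [PAW_swap Y B R hR hB a c]
    exact h c hc
  have h2 : ∀ y ∈ Ico Y (2 * Y), ‖∑ n ∈ Ioc y (y + B), a n‖ ≤ B * L := by
    intro y hy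
    rw [mem_Ico] at hy
    refine (norm_sum_le _ _).trans ?_
    have h3 : ∀ n ∈ Ioc y (y + B), ‖a n‖ ≤ L := by
      intro n hn
      rw [mem_Ioc] at hn
      exact ha n (by omega) (by omega)
    refine (Finset.sum_le_card_nsmul _ _ _ h3).trans ?_
    rw [Nat.card_Ioc, nsmul_eq_mul]
    have : y + B - y = B := by omega
    rw [this]
  calc ∑ y ∈ Ico Y (2 * Y), ‖∑ n ∈ Ioc y (y + B), a n‖ ^ 2
      ≤ ∑ y ∈ Ico Y (2 * Y), (B * L) * ‖∑ n ∈ Ioc y (y + B), a n‖ := by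
        refine Finset.sum_le_sum fun y hy => ?_
        rw [pow_two]
        exact mul_le_mul_of_nonneg_right (h2 y hy) (norm_nonneg _)
    _ = (B * L) * ∑ y ∈ Ico Y (2 * Y), ‖∑ n ∈ Ioc y (y + B), a n‖ := by rw [Finset.mul_sum]
    _ ≤ B * L * (2 * M) := mul_le_mul_of_nonneg_left h1 (by positivity)

theorem PAW_root (Y : ℕ) (m : ℕ) (hm : 4 ≤ m) (hY : m ^ 3 ≤ Y) :
    ∃ N : ℕ, m ≤ N ∧ N ^ 3 ≤ Y ∧ Y ≤ 2 * N ^ 3 := by
  set N := Nat.findGreatest (fun n => n ^ 3 ≤ Y) Y with hN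
  have hle : m ≤ Y := (Nat.le_self_pow (by norm_num) m).trans hY
  have h1 : m ≤ N := Nat.le_findGreatest hle hY
  have h2 : N ^ 3 ≤ Y := Nat.findGreatest_spec (P := fun n => n ^ 3 ≤ Y) hle hY
  have h3 : Y < (N + 1) ^ 3 := by
    by_contra hc
    rw [not_lt] at hc
    have h4 : N + 1 ≤ Y := (Nat.le_self_pow (by norm_num) (N + 1)).trans hc
    have h5 := Nat.le_findGreatest (P := fun n => n ^ 3 ≤ Y) h4 hc
    omega
  refine ⟨N, h1, h2, ?_⟩
  have h6 : 4 ≤ N := hm.trans h1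
  have h7 : (N + 1) ^ 3 ≤ 2 * N ^ 3 := by
    obtain ⟨k, hk⟩ := Nat.exists_eq_add_of_le h6
    rw [hk]
    ring_nf
    nlinarith [Nat.zero_le k]
  omega

theorem PAW (h1 : WN2_stmt) (h2 : GGB_stmt) : PAW_stmt := by
  intro θ A K hθ
  obtain ⟨N₀, hN₀⟩ := h1 θ (A + 2) (K + 1) hθ
  set m : ℕ := max (max N₀ 4) (⌈Real.exp (16 * 4 ^ A + 4 ^ K)⌉₊) with hm
  refine ⟨m ^ 3, ?_⟩
  intro Y hY B hB1 hB2 q hq1 hq2 χ
  have hm4 : 4 ≤ m := (le_max_right _ _).trans (le_max_left _ _)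
  obtain ⟨N, hN1, hN2, hN3⟩ := PAW_root Y m hm4 hY
  have hNN : N₀ ≤ N := ((le_max_left _ _).trans (le_max_left _ _)).trans hN1
  have hN4 : 4 ≤ N := hm4.trans hN1
  have hNpos : (0 : ℝ) < N := by exact_mod_cast (by omega : 0 < N)
  have hYpos : 0 < Y := lt_of_lt_of_le (by positivity) hN2
  have hYr : (0 : ℝ) < Y := by exact_mod_cast hYpos
  -- the logarithm of `N` is large
  have hlN : 16 * 4 ^ A + 4 ^ K ≤ Real.log N := by
    have h3 : Real.exp (16 * 4 ^ A + 4 ^ K) ≤ N := by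
      refine (Nat.le_ceil _).trans ?_
      exact_mod_cast (le_max_right _ _).trans hN1
    rw [← Real.exp_le_exp, Real.exp_log hNpos]
    exact h3
  have h4A : (1 : ℝ) ≤ 4 ^ A := one_le_pow₀ (by norm_num)
  have h4K : (1 : ℝ) ≤ 4 ^ K := one_le_pow₀ (by norm_num)
  have hlN1 : 16 ≤ Real.log N := by nlinarith
  have hlN2 : 16 * 4 ^ A ≤ Real.log N := by linarith
  have hlN3 : 4 ^ K ≤ Real.log N := by linarith
  have hlog2 : Real.log 2 ≤ 1 := by
    have := Real.log_two_lt_d9; linarith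
  have hlog3 : Real.log 3 ≤ 2 := by
    have := Real.log_le_sub_one_of_pos (show (0 : ℝ) < 3 by norm_num)
    linarith
  -- the logarithm of `Y`
  have hlY : Real.log Y ≤ 4 * Real.log N := by
    have h3 : (Y : ℝ) ≤ 2 * (N : ℝ) ^ 3 := by exact_mod_cast hN3
    calc Real.log Y ≤ Real.log (2 * (N : ℝ) ^ 3) := Real.log_le_log hYr h3
      _ = Real.log 2 + 3 * Real.log N := by
        rw [Real.log_mul (by norm_num) (by positivity), Real.log_pow]; norm_num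
      _ ≤ 4 * Real.log N := by linarith
  have hlY1 : 1 ≤ Real.log Y := by
    have h3 : (N : ℝ) ^ 3 ≤ Y := by exact_mod_cast hN2
    have h4 : Real.log ((N : ℝ) ^ 3) ≤ Real.log Y := Real.log_le_log (by positivity) h3
    rw [Real.log_pow] at h4
    push_cast at h4
    linarith
  have hq3 : (q : ℝ) ≤ Real.log N ^ (K + 1) := by
    calc (q : ℝ) ≤ Real.log Y ^ K := hq2
      _ ≤ (4 * Real.log N) ^ K := pow_le_pow_left₀ (by linarith) hlY K
      _ = 4 ^ K * Real.log N ^ K := mul_pow _ _ _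
      _ ≤ Real.log N * Real.log N ^ K :=
        mul_le_mul_of_nonneg_right hlN3 (pow_nonneg (by linarith) K)
      _ = Real.log N ^ (K + 1) := by ring
  have hR : 3 * Y ≤ 64 * N ^ 3 := by omega
  have hmain := hN₀ N hNN Y B hN2 hN3 hB1 hB2 q hq1 hq3 χ
  -- the supremum
  have hl3Y : Real.log (3 * Y) = Real.log 3 + Real.log Y :=
    Real.log_mul (by norm_num) hYr.ne'
  have hLam : ∀ j : ℕ, 1 ≤ j → j ≤ 3 * Y → (vonMangoldt j : ℝ) ≤ Real.log (3 * Y) := by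
    intro j hj1 hj2
    refine vonMangoldt_le_log.trans ?_
    apply Real.log_le_log (by exact_mod_cast hj1)
    exact_mod_cast hj2
  set L : ℝ := 1 + Real.log (3 * Y) with hL
  have hL0 : 0 ≤ L := by rw [hL, hl3Y]; have := Real.log_nonneg (show (1:ℝ) ≤ 3 by norm_num); linarith
  have hL8 : L ≤ 8 * Real.log N := by rw [hL, hl3Y]; linarith
  have hχ : ∀ j : ℕ, ‖(χ j : ℂ)‖ ≤ 1 := fun j => DirichletCharacter.norm_le_one χ _
  set M : ℝ := B * (N : ℝ) ^ 3 / Real.log N ^ (A + 2) with hM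
  have hfin : B * L * (2 * M) ≤ Y * (B : ℝ) ^ 2 / Real.log Y ^ A := by
    have hlNpos : 0 < Real.log N := by linarith
    have hNY : (N : ℝ) ^ 3 ≤ Y := by exact_mod_cast hN2
    rw [hM, le_div_iff₀ (pow_pos (by linarith) A)]
    have h5 : Real.log Y ^ A ≤ 4 ^ A * Real.log N ^ A := by
      rw [← mul_pow]
      exact pow_le_pow_left₀ (by linarith) hlY A
    have h6 : 2 * L * Real.log Y ^ A ≤ Real.log N ^ (A + 2) := by
      calc 2 * L * Real.log Y ^ A ≤ 2 * (8 * Real.log N) * (4 ^ A * Real.log N ^ A) := by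
            apply mul_le_mul _ h5 (pow_nonneg (by linarith) A) (by positivity)
            linarith
        _ = (16 * 4 ^ A) * Real.log N ^ (A + 1) := by ring
        _ ≤ Real.log N * Real.log N ^ (A + 1) :=
          mul_le_mul_of_nonneg_right hlN2 (by positivity)
        _ = Real.log N ^ (A + 2) := by ring
    have h7 : B * L * (2 * (B * (N : ℝ) ^ 3 / Real.log N ^ (A + 2))) * Real.log Y ^ A =
        ((N : ℝ) ^ 3 * (B : ℝ) ^ 2) * ((2 * L * Real.log Y ^ A) / Real.log N ^ (A + 2)) := by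
      ring
    rw [h7]
    have h8 : (2 * L * Real.log Y ^ A) / Real.log N ^ (A + 2) ≤ 1 := by
      rw [div_le_one (by positivity)]
      exact h6
    calc ((N : ℝ) ^ 3 * (B : ℝ) ^ 2) * ((2 * L * Real.log Y ^ A) / Real.log N ^ (A + 2))
        ≤ ((N : ℝ) ^ 3 * (B : ℝ) ^ 2) * 1 := mul_le_mul_of_nonneg_left h8 (by positivity)
      _ ≤ Y * (B : ℝ) ^ 2 := by
        rw [mul_one]
        exact mul_le_mul_of_nonneg_right hNY (by positivity)
  constructor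
  · intro hne
    refine (PAW_l2 Y B (64 * N ^ 3) hR hB2 (fun n => (vonMangoldt n : ℂ) * χ n) M L hL0 ?_ ?_).trans
      hfin
    · intro j hj1 hj2
      have h9 := hLam j hj1 hj2
      have h10 : (0 : ℝ) ≤ vonMangoldt j := vonMangoldt_nonneg
      rw [norm_mul, Complex.norm_real, Real.norm_of_nonneg h10]
      calc (vonMangoldt j : ℝ) * ‖χ j‖ ≤ vonMangoldt j * 1 :=
            mul_le_mul_of_nonneg_left (hχ j) h10
        _ ≤ L := by rw [hL]; linarith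
    · intro c hc
      have hW := hN₀ N hNN Y B hN2 hN3 hB1 hB2 q hq1 hq3 χ c hc
      exact hW.1 hne
  · intro heq
    refine (PAW_l2 Y B (64 * N ^ 3) hR hB2 (fun n => (vonMangoldt n : ℂ) * χ n - 1) M L hL0
      ?_ ?_).trans hfin
    · intro j hj1 hj2
      have h9 := hLam j hj1 hj2
      have h10 : (0 : ℝ) ≤ vonMangoldt j := vonMangoldt_nonneg
      refine (norm_sub_le _ _).trans ?_
      rw [norm_mul, Complex.norm_real, Real.norm_of_nonneg h10, norm_one]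
      calc (vonMangoldt j : ℝ) * ‖χ j‖ + 1 ≤ vonMangoldt j * 1 + 1 := by
            have := mul_le_mul_of_nonneg_left (hχ j) h10
            linarith
        _ ≤ L := by rw [hL]; linarith
    · intro c hc
      have hW := hN₀ N hNN Y B hN2 hN3 hB1 hB2 q hq1 hq3 χ c hc
      exact hW.2 heq

end Pool.Agent.BQ
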